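import Pool.Agent.H28.MCB.Targets
import Pool.Agent.H28.MCL.CBU

/-! Modules CBB, CAB and FIB of the project MCB. -/

set_option autoImplicit false

open Finset Filter Topology

namespace Pool.Agent.H28.MCB

open Pool.Agent.H28.MCL

theorem cbb (hR : T_BBB) (hD : T_DIB) (hG : T_GEB) : T_CBB := by
  obtain ⟨c, hc, hc1, h⟩ := hR
  refine ⟨c / (9 * 16 ^ 4), by positivity, by linarith, ?_⟩
  intro θ hθ hθ1 m hm
  obtain ⟨δ, hδd⟩ : ∃ δ : ℝ, δ = θ / 16 := ⟨_, rfl⟩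
  have hδ : 0 < δ := by rw [hδd]; positivity
  have hδ1 : δ ≤ 1 := by rw [hδd]; linarith
  have hBB := h δ hδ hδ1 m 2 hm le_rfl
  obtain ⟨κ, hκd⟩ : ∃ κ : ℝ, κ = c * δ ^ 4 := ⟨_, rfl⟩
  rw [← hκd] at hBB
  have hκ : 0 < κ := by rw [hκd]; positivity
  have hκ1 : κ ≤ 1 := by
    rw [hκd]
    have h1 : δ ^ 4 ≤ 1 := pow_le_one₀ hδ.le hδ1
    nlinarith [pow_pos hδ 4]
  have hV0 : 0 ≤ 1 - κ / 4 := by linarith
  have hs : Real.sqrt (1 - κ / 4) ≤ 1 - κ / 8 := by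
    have := sqrt_one_sub_le (x := κ / 4) (by linarith) (by linarith)
    linarith
  have he : 1 - c / (9 * 16 ^ 4) * θ ^ 4 = 1 - κ / 9 := by
    rw [hκd, hδd]
    ring
  rw [he]
  exact hG m 2 θ δ κ (1 - κ / 4) _ hm le_rfl hθ hθ1 hδ hκ hκ1 hV0 (by linarith) hBB
    (hD m κ θ δ hm hκ hκ1 hθ hδ.le (by rw [hδd]; linarith))

theorem cab (hR : T_BBB) (hD : T_DIA) (hG : T_GEB) : T_CAB := by
  obtain ⟨c₁, hc₁, hc₁1, h⟩ := hR
  obtain ⟨c, hcd⟩ : ∃ c : ℝ, c = c₁ / (96 * 1024 ^ 4) := ⟨_, rfl⟩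
  have hc : 0 < c := by rw [hcd]; positivity
  have hc1 : c ≤ 1 := by
    rw [hcd, div_le_one (by positivity)]
    norm_num
    linarith
  refine ⟨c, hc, hc1, ?_⟩
  intro θ hθ hθ1 m hm hη1
  have hm0 : (1 : ℝ) ≤ m := by exact_mod_cast hm
  have hm0' : (0 : ℝ) < m := by linarith
  obtain ⟨y, hy⟩ : ∃ y : ℝ, y = (1 / (θ ^ 4 * (m : ℝ))) ^ ((1 : ℝ) / 9) := ⟨_, rfl⟩
  rw [← hy] at hη1 ⊢
  have hX : 0 < 1 / (θ ^ 4 * (m : ℝ)) := by positivity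
  have hy0 : 0 < y := by rw [hy]; exact Real.rpow_pos_of_pos hX _
  have hy9 : y ^ 9 = 1 / (θ ^ 4 * (m : ℝ)) := by
    rw [hy, ← Real.rpow_natCast, ← Real.rpow_mul hX.le]
    norm_num
  obtain ⟨η, hηd⟩ : ∃ η : ℝ, η = y / c := ⟨_, rfl⟩
  rw [← hηd] at hη1 ⊢
  have hη : 0 < η := by rw [hηd]; positivity
  have hη2 : 0 < η ^ 2 := by positivity
  have hyη : y = c * η := by
    rw [hηd]
    field_simp
  have hkey : θ ^ 4 * m * η ^ 8 * (c ^ 9 * η) = 1 := by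
    have h1 : (c * η) ^ 9 = 1 / (θ ^ 4 * (m : ℝ)) := by rw [← hyη]; exact hy9
    have h2 : θ ^ 4 * m * η ^ 8 * (c ^ 9 * η) = θ ^ 4 * m * (c * η) ^ 9 := by ring
    rw [h2, h1, mul_one_div_cancel (by positivity)]
  obtain ⟨D₀, hD₀⟩ := exists_nat_ge (16 / η ^ 2)
  obtain ⟨D, hDd⟩ : ∃ D : ℕ, D = max 2 D₀ := ⟨_, rfl⟩
  have hD2 : 2 ≤ D := by rw [hDd]; exact le_max_left _ _
  have hDr : 16 / η ^ 2 ≤ (D : ℝ) := hD₀.trans (by rw [hDd]; exact_mod_cast le_max_right 2 D₀)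
  have hD0 : (0 : ℝ) < D := by
    have : (2 : ℝ) ≤ D := by exact_mod_cast hD2
    linarith
  have hDi : 1 / (D : ℝ) ≤ η ^ 2 / 16 := by
    rw [div_le_iff₀ hη2] at hDr
    rw [div_le_iff₀ hD0]
    nlinarith
  have hη21 : η ^ 2 ≤ 1 := pow_le_one₀ hη.le hη1.le
  obtain ⟨δ, hδd⟩ : ∃ δ : ℝ, δ = θ * (η ^ 2 / 1024) := ⟨_, rfl⟩
  have hδ : 0 < δ := by rw [hδd]; positivity
  have hδ1 : δ ≤ 1 := by
    rw [hδd]
    nlinarith
  have hBB := h δ hδ hδ1 m D hm hD2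
  obtain ⟨κ, hκd⟩ : ∃ κ : ℝ, κ = c₁ * δ ^ 4 := ⟨_, rfl⟩
  rw [← hκd] at hBB
  have hκ : 0 < κ := by rw [hκd]; positivity
  have hκ1 : κ ≤ 1 := by
    rw [hκd]
    have h1 : δ ^ 4 ≤ 1 := pow_le_one₀ hδ.le hδ1
    nlinarith [pow_pos hδ 4]
  -- the exponential
  have hκm : κ * m * (c ^ 9 * η) = c₁ / 1024 ^ 4 := by
    have h1 : κ * m = c₁ / 1024 ^ 4 * (θ ^ 4 * m * η ^ 8) := by
      rw [hκd, hδd]
      ring
    rw [h1, mul_assoc, hkey, mul_one]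
  have hc7 : c ^ 9 ≤ c := by
    have := pow_le_pow_of_le_one hc.le hc1 (show 1 ≤ 9 by norm_num)
    simpa using this
  have hA : 96 ≤ κ * m * η := by
    have h1 : κ * m * η * c ^ 9 = c₁ / 1024 ^ 4 := by rw [← hκm]; ring
    have h2 : c₁ / 1024 ^ 4 = 96 * c := by
      rw [hcd]
      field_simp
    have h3 : 0 ≤ κ * m * η := by positivity
    have h4 : 96 * c ≤ κ * m * η * c := by
      rw [← h2, ← h1]
      exact mul_le_mul_of_nonneg_left hc7 h3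
    exact le_of_mul_le_mul_right h4 hc
  obtain ⟨s, hs⟩ : ∃ s : ℝ, s = Real.sqrt (1 - κ / 4) := ⟨_, rfl⟩
  have hs0 : 0 ≤ s := by rw [hs]; exact Real.sqrt_nonneg _
  have hs1 : s ≤ Real.exp (-(κ / 8)) := by
    have h1 := sqrt_one_sub_le (x := κ / 4) (by linarith) (by linarith)
    have h2 := Real.add_one_le_exp (-(κ / 8))
    rw [hs]
    linarith
  have hsm : s ^ m ≤ η ^ 2 / 64 := by
    have h1 : s ^ m ≤ Real.exp (-(κ / 8)) ^ m := pow_le_pow_left₀ hs0 hs1 m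
    rw [← Real.exp_nat_mul] at h1
    obtain ⟨t, ht⟩ : ∃ t : ℝ, t = κ * m / 8 := ⟨_, rfl⟩
    have ht0 : 0 ≤ t := by rw [ht]; positivity
    have htη : 12 ≤ t * η := by
      rw [ht]
      linarith
    have h2 : (m : ℝ) * -(κ / 8) = -t := by rw [ht]; ring
    rw [h2, Real.exp_neg] at h1
    have h3 := Real.quadratic_le_exp_of_nonneg ht0
    have h4 : 64 / η ^ 2 ≤ Real.exp t := by
      rw [div_le_iff₀ hη2]
      have h5 : 144 ≤ t ^ 2 * η ^ 2 := by nlinarith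
      have h6 : t ^ 2 / 2 ≤ Real.exp t := by linarith
      have h7 : t ^ 2 / 2 * η ^ 2 ≤ Real.exp t * η ^ 2 := mul_le_mul_of_nonneg_right h6 hη2.le
      linarith
    refine h1.trans ?_
    rw [inv_le_comm₀ (Real.exp_pos t) (by positivity), inv_div]
    exact h4
  have hq : δ / θ = η ^ 2 / 1024 := by
    rw [hδd]
    field_simp
  refine hG m D θ δ κ (1 / D + 4 * s ^ m + 64 * (δ / θ)) η hm hD2 hθ hθ1 hδ hκ hκ1
    (by positivity) ?_ hBB (by rw [hs]; exact hD m D κ θ δ hm hD2 hκ hκ1 hθ hδ.le)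
  rw [Real.sqrt_lt' hη, hq]
  linarith

theorem rhI_nonneg {m : ℕ} (q n₀ : ℕ) (τ : Fin m → ℕ) (F : Fin m → ℕ → ℝ)
    (I : Finset (ℕ × ℕ)) (T : ℕ) : 0 ≤ rhI q n₀ τ F I T :=
  Finset.sum_nonneg fun _ _ => rhs_nonneg' _ _ _ _ _ _ _

theorem corB_mono {m : ℕ} {θ η η' : ℝ} (h : CorB m θ η) (hη : η ≤ η') : CorB m θ η' := by
  classical
  intro r α ε q n₀ τ h1 h2 h3 h4 ρ hρ
  obtain ⟨K, hK⟩ := h r α ε q n₀ τ h1 h2 h3 h4 ρ hρ
  refine ⟨K, fun x y hx hy => (Finset.sum_le_sum_of_subset_of_nonneg ?_ ?_).trans (hK x y hx hy)⟩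
  · intro N hN
    rw [mem_filter] at hN ⊢
    obtain ⟨hN1, T, w, I, a1, a2, a3, a4, a5, a6⟩ := hN
    exact ⟨hN1, T, w, I, a1, a2, a3, a4, a5,
      lt_of_le_of_lt (mul_le_mul_of_nonneg_right hη (rhI_nonneg _ _ _ _ _ _)) a6⟩
  · intro i _ _
    positivity

theorem fib (hA : T_CAB) (hB : T_CBB) : T_FIB := by
  obtain ⟨c₁, h1, h1', hA⟩ := hA
  obtain ⟨c₂, h2, h2', hB⟩ := hB
  have hc : 0 < min c₁ c₂ := lt_min h1 h2
  refine ⟨min c₁ c₂, hc, fun θ hθ hθ1 m hm => ?_⟩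
  have hm0 : (0 : ℝ) < m := by exact_mod_cast hm
  have hX : 0 ≤ (1 / (θ ^ 4 * (m : ℝ))) ^ ((1 : ℝ) / 9) := by positivity
  have e1 : 1 - c₂ * θ ^ 4 ≤ 1 - min c₁ c₂ * θ ^ 4 := by
    have : min c₁ c₂ * θ ^ 4 ≤ c₂ * θ ^ 4 :=
      mul_le_mul_of_nonneg_right (min_le_right _ _) (by positivity)
    linarith
  have e2 : (1 / (θ ^ 4 * (m : ℝ))) ^ ((1 : ℝ) / 9) / c₁ ≤
      (1 / (θ ^ 4 * (m : ℝ))) ^ ((1 : ℝ) / 9) / min c₁ c₂ :=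
    div_le_div_of_nonneg_left hX hc (min_le_left _ _)
  rcases min_choice (1 - min c₁ c₂ * θ ^ 4)
    ((1 / (θ ^ 4 * (m : ℝ))) ^ ((1 : ℝ) / 9) / min c₁ c₂) with h | h
  · rw [h]
    exact corB_mono (hB θ hθ hθ1 m hm) e1
  · rw [h]
    by_cases hlt : (1 / (θ ^ 4 * (m : ℝ))) ^ ((1 : ℝ) / 9) / c₁ < 1
    · exact corB_mono (hA θ hθ hθ1 m hm hlt) e2
    · refine corB_mono (hB θ hθ hθ1 m hm) ?_
      have h3 : 0 ≤ c₂ * θ ^ 4 := by positivity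
      push Not at hlt
      linarith

end Pool.Agent.H28.MCB
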