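import Pool.Agent.H28.MCB.BBB
import Pool.Agent.H28.MCB.CBB

/-!
The end of the project MCB with the constant `c * δ ^ 2` in the local gap.
-/

set_option autoImplicit false

open Finset Filter Topology

namespace Pool.Agent.H28.MCB

open Pool.Agent.H24.MR (lam)
open Pool.Agent.H24.T2 (Fr)
open Pool.Agent.H28.MCL

/-- [TLB] The local gap for products of values of the Liouville function, for almost all `N`,
uniform in the number of points, with the constant `c * δ ^ 2`. -/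
def T_TLS : Prop :=
  ∃ c : ℝ, 0 < c ∧ ∀ δ : ℝ, 0 < δ → δ ≤ 1 →
    ∀ (k : ℕ) (β : Fin k → ℕ) (Q a : ℕ), 0 < k → 0 < Q → Even Q → Function.Injective β →
      ∀ ρ : ℝ, 0 < ρ →
      ∃ h₀ : ℕ, ∀ h, h₀ ≤ h → Bn (ind (Bad (fun y => ∏ i, lam (y + β i)) (c * δ ^ 2) Q a h)) δ ρ

/-- The bad windows are rare, explicit constant. -/
def T_BBS : Prop :=
  ∃ c : ℝ, 0 < c ∧ c ≤ 1 ∧ ∀ δ : ℝ, 0 < δ → δ ≤ 1 → ∀ m D : ℕ, 1 ≤ m → 2 ≤ D →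
    BBq m D (c * δ ^ 2) δ

/-- Any number of clusters. -/
def T_CBS : Prop :=
  ∃ c : ℝ, 0 < c ∧ c ≤ 1 ∧ ∀ θ : ℝ, 0 < θ → θ ≤ 1 → ∀ m : ℕ, 1 ≤ m →
    CorB m θ (1 - c * θ ^ 2)

/-- Many clusters. -/
def T_CAS : Prop :=
  ∃ c : ℝ, 0 < c ∧ c ≤ 1 ∧ ∀ θ : ℝ, 0 < θ → θ ≤ 1 → ∀ m : ℕ, 1 ≤ m →
    (1 / (θ ^ 2 * (m : ℝ))) ^ ((1 : ℝ) / 5) / c < 1 →
    CorB m θ ((1 / (θ ^ 2 * (m : ℝ))) ^ ((1 : ℝ) / 5) / c)

/-- The final theorem. -/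
def T_FIS : Prop :=
  ∃ c : ℝ, 0 < c ∧ ∀ θ : ℝ, 0 < θ → θ ≤ 1 → ∀ m : ℕ, 1 ≤ m →
    CorB m θ (min (1 - c * θ ^ 2) ((1 / (θ ^ 2 * (m : ℝ))) ^ ((1 : ℝ) / 5) / c))

theorem bbs (hT : T_TLS) (hz : T_BZC) (hv : T_BVB) (hs : T_SYM) : T_BBS := by
  obtain ⟨c, hc, h⟩ := hT
  have hc1 : 0 < min c 1 := lt_min hc one_pos
  refine ⟨min c 1 / 4, by positivity, ?_, ?_⟩
  · have := min_le_right c (1 : ℝ)
    linarith
  intro δ hδ hδ1 m D hm hD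
  have hδ3 : 0 < δ ^ 2 := by positivity
  have hδ31 : δ ^ 2 ≤ 1 := pow_le_one₀ hδ.le hδ1
  have hκ : 0 < min c 1 / 4 * δ ^ 2 := by positivity
  have hκ1 : min c 1 / 4 * δ ^ 2 ≤ 1 := by
    have h1 := min_le_right c (1 : ℝ)
    have h2 : min c 1 / 4 * δ ^ 2 ≤ 1 * 1 := mul_le_mul (by linarith) hδ31 hδ3.le (by norm_num)
    linarith
  refine bbq_core hv hδ (fun S W a Δ hSn hW hWe hΔ ρ hρ => ?_) m D hm hD
  obtain ⟨S', hn', _, he⟩ := hs S Δ hSn hΔ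
  have e : (fun y => gs S y * gs S (y + Δ)) = gs S' := funext he
  rw [e]
  refine hz δ _ ρ S' W a hδ hκ hκ1 hρ hn' hW fun k' β hk' hβ => ?_
  obtain ⟨h₀, hh⟩ := h (δ / 2) (by linarith) (by linarith) k' β W a hk' hW hWe hβ (ρ / 2)
    (by linarith)
  refine ⟨h₀, fun H hH => bn_mono (fun n => ind_mono (fun n' hn => bad_mono ?_ hn) n) (hh H hH)⟩
  have h1 := min_le_left c (1 : ℝ)
  have h2 : c * (δ / 2) ^ 2 = c / 4 * δ ^ 2 := by ring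
  rw [h2]
  exact mul_le_mul_of_nonneg_right (by linarith) hδ3.le

theorem cbs (hR : T_BBS) (hD : T_DIB) (hG : T_GEB) : T_CBS := by
  obtain ⟨c, hc, hc1, h⟩ := hR
  refine ⟨c / (9 * 16 ^ 2), by positivity, by linarith, ?_⟩
  intro θ hθ hθ1 m hm
  obtain ⟨δ, hδd⟩ : ∃ δ : ℝ, δ = θ / 16 := ⟨_, rfl⟩
  have hδ : 0 < δ := by rw [hδd]; positivity
  have hδ1 : δ ≤ 1 := by rw [hδd]; linarith
  have hBB := h δ hδ hδ1 m 2 hm le_rfl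
  obtain ⟨κ, hκd⟩ : ∃ κ : ℝ, κ = c * δ ^ 2 := ⟨_, rfl⟩
  rw [← hκd] at hBB
  have hκ : 0 < κ := by rw [hκd]; positivity
  have hκ1 : κ ≤ 1 := by
    rw [hκd]
    have h1 : δ ^ 2 ≤ 1 := pow_le_one₀ hδ.le hδ1
    nlinarith [pow_pos hδ 2]
  have hV0 : 0 ≤ 1 - κ / 4 := by linarith
  have hs : Real.sqrt (1 - κ / 4) ≤ 1 - κ / 8 := by
    have := sqrt_one_sub_le (x := κ / 4) (by linarith) (by linarith)
    linarith
  have he : 1 - c / (9 * 16 ^ 2) * θ ^ 2 = 1 - κ / 9 := by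
    rw [hκd, hδd]
    ring
  rw [he]
  exact hG m 2 θ δ κ (1 - κ / 4) _ hm le_rfl hθ hθ1 hδ hκ hκ1 hV0 (by linarith) hBB
    (hD m κ θ δ hm hκ hκ1 hθ hδ.le (by rw [hδd]; linarith))

theorem cas (hR : T_BBS) (hD : T_DIA) (hG : T_GEB) : T_CAS := by
  obtain ⟨c₁, hc₁, hc₁1, h⟩ := hR
  obtain ⟨c, hcd⟩ : ∃ c : ℝ, c = c₁ / (96 * 1024 ^ 2) := ⟨_, rfl⟩
  have hc : 0 < c := by rw [hcd]; positivity
  have hc1 : c ≤ 1 := by
    rw [hcd, div_le_one (by positivity)]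
    norm_num
    linarith
  refine ⟨c, hc, hc1, ?_⟩
  intro θ hθ hθ1 m hm hη1
  have hm0 : (1 : ℝ) ≤ m := by exact_mod_cast hm
  have hm0' : (0 : ℝ) < m := by linarith
  obtain ⟨y, hy⟩ : ∃ y : ℝ, y = (1 / (θ ^ 2 * (m : ℝ))) ^ ((1 : ℝ) / 5) := ⟨_, rfl⟩
  rw [← hy] at hη1 ⊢
  have hX : 0 < 1 / (θ ^ 2 * (m : ℝ)) := by positivity
  have hy0 : 0 < y := by rw [hy]; exact Real.rpow_pos_of_pos hX _
  have hy5 : y ^ 5 = 1 / (θ ^ 2 * (m : ℝ)) := by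
    rw [hy, ← Real.rpow_natCast, ← Real.rpow_mul hX.le]
    norm_num
  obtain ⟨η, hηd⟩ : ∃ η : ℝ, η = y / c := ⟨_, rfl⟩
  rw [← hηd] at hη1 ⊢
  have hη : 0 < η := by rw [hηd]; positivity
  have hη2 : 0 < η ^ 2 := by positivity
  have hyη : y = c * η := by
    rw [hηd]
    field_simp
  have hkey : θ ^ 2 * m * η ^ 4 * (c ^ 5 * η) = 1 := by
    have h1 : (c * η) ^ 5 = 1 / (θ ^ 2 * (m : ℝ)) := by rw [← hyη]; exact hy5
    have h2 : θ ^ 2 * m * η ^ 4 * (c ^ 5 * η) = θ ^ 2 * m * (c * η) ^ 5 := by ring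
    rw [h2, h1, mul_one_div_cancel (by positivity)]
  obtain ⟨D₀, hD₀⟩ := exists_nat_ge (16 / η ^ 2)
  obtain ⟨D, hDd⟩ : ∃ D : ℕ, D = max 2 D₀ := ⟨_, rfl⟩
  have hD2 : 2 ≤ D := by rw [hDd]; exact le_max_left _ _
  have hDr : 16 / η ^ 2 ≤ (D : ℝ) := hD₀.trans (by rw [hDd]; exact_mod_cast le_max_right 2 D₀)
  have hD0 : (0 : ℝ) < D := by
    have : (2 : ℝ) ≤ D := by exact_mod_cast hD2
    linarith
  have hDi : 1 / (D : ℝ) ≤ η ^ 2 / 16 := by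
    rw [div_le_iff₀ hη2] at hDr
    rw [div_le_iff₀ hD0]
    nlinarith
  have hη21 : η ^ 2 ≤ 1 := pow_le_one₀ hη.le hη1.le
  obtain ⟨δ, hδd⟩ : ∃ δ : ℝ, δ = θ * (η ^ 2 / 1024) := ⟨_, rfl⟩
  have hδ : 0 < δ := by rw [hδd]; positivity
  have hδ1 : δ ≤ 1 := by
    rw [hδd]
    nlinarith
  have hBB := h δ hδ hδ1 m D hm hD2
  obtain ⟨κ, hκd⟩ : ∃ κ : ℝ, κ = c₁ * δ ^ 2 := ⟨_, rfl⟩
  rw [← hκd] at hBB
  have hκ : 0 < κ := by rw [hκd]; positivity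
  have hκ1 : κ ≤ 1 := by
    rw [hκd]
    have h1 : δ ^ 2 ≤ 1 := pow_le_one₀ hδ.le hδ1
    nlinarith [pow_pos hδ 2]
  -- the exponential
  have hκm : κ * m * (c ^ 5 * η) = c₁ / 1024 ^ 2 := by
    have h1 : κ * m = c₁ / 1024 ^ 2 * (θ ^ 2 * m * η ^ 4) := by
      rw [hκd, hδd]
      ring
    rw [h1, mul_assoc, hkey, mul_one]
  have hc7 : c ^ 5 ≤ c := by
    have := pow_le_pow_of_le_one hc.le hc1 (show 1 ≤ 5 by norm_num)
    simpa using this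
  have hA : 96 ≤ κ * m * η := by
    have h1 : κ * m * η * c ^ 5 = c₁ / 1024 ^ 2 := by rw [← hκm]; ring
    have h2 : c₁ / 1024 ^ 2 = 96 * c := by
      rw [hcd]
      field_simp
    have h3 : 0 ≤ κ * m * η := by positivity
    have h4 : 96 * c ≤ κ * m * η * c := by
      rw [← h2, ← h1]
      exact mul_le_mul_of_nonneg_left hc7 h3
    exact le_of_mul_le_mul_right h4 hc
  obtain ⟨s, hs⟩ : ∃ s : ℝ, s = Real.sqrt (1 - κ / 4) := ⟨_, rfl⟩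
  have hs0 : 0 ≤ s := by rw [hs]; exact Real.sqrt_nonneg _
  have hs1 : s ≤ Real.exp (-(κ / 8)) := by
    have h1 := sqrt_one_sub_le (x := κ / 4) (by linarith) (by linarith)
    have h2 := Real.add_one_le_exp (-(κ / 8))
    rw [hs]
    linarith
  have hsm : s ^ m ≤ η ^ 2 / 64 := by
    have h1 : s ^ m ≤ Real.exp (-(κ / 8)) ^ m := pow_le_pow_left₀ hs0 hs1 m
    rw [← Real.exp_nat_mul] at h1
    obtain ⟨t, ht⟩ : ∃ t : ℝ, t = κ * m / 8 := ⟨_, rfl⟩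
    have ht0 : 0 ≤ t := by rw [ht]; positivity
    have htη : 12 ≤ t * η := by
      rw [ht]
      linarith
    have h2 : (m : ℝ) * -(κ / 8) = -t := by rw [ht]; ring
    rw [h2, Real.exp_neg] at h1
    have h3 := Real.quadratic_le_exp_of_nonneg ht0
    have h4 : 64 / η ^ 2 ≤ Real.exp t := by
      rw [div_le_iff₀ hη2]
      have h5 : 144 ≤ t ^ 2 * η ^ 2 := by nlinarith
      have h6 : t ^ 2 / 2 ≤ Real.exp t := by linarith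
      have h7 : t ^ 2 / 2 * η ^ 2 ≤ Real.exp t * η ^ 2 := mul_le_mul_of_nonneg_right h6 hη2.le
      linarith
    refine h1.trans ?_
    rw [inv_le_comm₀ (Real.exp_pos t) (by positivity), inv_div]
    exact h4
  have hq : δ / θ = η ^ 2 / 1024 := by
    rw [hδd]
    field_simp
  refine hG m D θ δ κ (1 / D + 4 * s ^ m + 64 * (δ / θ)) η hm hD2 hθ hθ1 hδ hκ hκ1
    (by positivity) ?_ hBB (by rw [hs]; exact hD m D κ θ δ hm hD2 hκ hκ1 hθ hδ.le)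
  rw [Real.sqrt_lt' hη, hq]
  linarith

theorem fis (hA : T_CAS) (hB : T_CBS) : T_FIS := by
  obtain ⟨c₁, h1, h1', hA⟩ := hA
  obtain ⟨c₂, h2, h2', hB⟩ := hB
  have hc : 0 < min c₁ c₂ := lt_min h1 h2
  refine ⟨min c₁ c₂, hc, fun θ hθ hθ1 m hm => ?_⟩
  have hm0 : (0 : ℝ) < m := by exact_mod_cast hm
  have hX : 0 ≤ (1 / (θ ^ 2 * (m : ℝ))) ^ ((1 : ℝ) / 5) := by positivity
  have e1 : 1 - c₂ * θ ^ 2 ≤ 1 - min c₁ c₂ * θ ^ 2 := by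
    have : min c₁ c₂ * θ ^ 2 ≤ c₂ * θ ^ 2 :=
      mul_le_mul_of_nonneg_right (min_le_right _ _) (by positivity)
    linarith
  have e2 : (1 / (θ ^ 2 * (m : ℝ))) ^ ((1 : ℝ) / 5) / c₁ ≤
      (1 / (θ ^ 2 * (m : ℝ))) ^ ((1 : ℝ) / 5) / min c₁ c₂ :=
    div_le_div_of_nonneg_left hX hc (min_le_left _ _)
  rcases min_choice (1 - min c₁ c₂ * θ ^ 2)
    ((1 / (θ ^ 2 * (m : ℝ))) ^ ((1 : ℝ) / 5) / min c₁ c₂) with h | h
  · rw [h]
    exact corB_mono (hB θ hθ hθ1 m hm) e1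
  · rw [h]
    by_cases hlt : (1 / (θ ^ 2 * (m : ℝ))) ^ ((1 : ℝ) / 5) / c₁ < 1
    · exact corB_mono (hA θ hθ hθ1 m hm hlt) e2
    · refine corB_mono (hB θ hθ hθ1 m hm) ?_
      have h3 : 0 ≤ c₂ * θ ^ 2 := by positivity
      push Not at hlt
      linarith

open Classical in
/-- The final theorem without auxiliary definitions. -/
theorem fis_explicit (hF : T_FIS) :
    ∃ c : ℝ, 0 < c ∧ ∀ (θ : ℝ) (m : ℕ) (r : Fin m → ℕ) (α : (l : Fin m) → Fin (r l) → ℤ)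
      (ε : (l : Fin m) → Fin (r l) → ℕ) (q n₀ : ℕ) (τ : Fin m → ℕ) (ρ : ℝ), 0 < θ → θ ≤ 1 →
      1 ≤ m → (∀ l, Function.Injective (α l)) → (∀ l i, 1 ≤ ε l i) → (∀ l, ∃ i, Odd (ε l i)) →
      0 < q → 0 < ρ →
      ∃ K : ℕ, ∀ x y : ℕ, 0 < x → K * x ≤ y →
        ∑ N ∈ (Icc x y).filter (fun N => ∃ (T : ℕ) (w : ℕ → ℝ) (I : Finset (ℕ × ℕ)),
            K ≤ T ∧ T ≤ N ∧ (∀ n, |w n| ≤ 1) ∧ (∀ J ∈ I, J.1 + K ≤ J.2 ∧ J.2 ≤ N) ∧
            (I : Set (ℕ × ℕ)).PairwiseDisjoint (fun J => Ioc J.1 J.2) ∧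
            θ * N ≤ ∑ J ∈ I, ((J.2 : ℝ) - J.1) ∧
            min (1 - c * θ ^ 2) ((1 / (θ ^ 2 * (m : ℝ))) ^ ((1 : ℝ) / 5) / c) *
              (∑ J ∈ I, ∑ t ∈ (Fintype.piFinset (fun _ : Fin m => Icc 1 T)).filter
                  (fun t => ∀ l, t l ≡ τ l [MOD q]),
                ∑ n ∈ (Ioc J.1 J.2).filter (fun n => n ≡ n₀ [MOD q]),
                  ∏ l, |∏ i, ((ArithmeticFunction.moebius
                    ((((n + t l : ℕ) : ℤ) + α l i).toNat) : ℤ) : ℝ) ^ ε l i|) <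
              ∑ J ∈ I, ∑ t ∈ (Fintype.piFinset (fun _ : Fin m => Icc 1 T)).filter
                  (fun t => ∀ l, t l ≡ τ l [MOD q]),
                |∑ n ∈ (Ioc J.1 J.2).filter (fun n => n ≡ n₀ [MOD q]),
                  w n * ∏ l, ∏ i, ((ArithmeticFunction.moebius
                    ((((n + t l : ℕ) : ℤ) + α l i).toNat) : ℤ) : ℝ) ^ ε l i|),
          (1 : ℝ) / N ≤ ρ * Real.log ((y : ℝ) / x) := by
  obtain ⟨c, hc, h⟩ := hF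
  refine ⟨c, hc, fun θ m r α ε q n₀ τ ρ hθ hθ1 hm hα hε hodd hq hρ => ?_⟩
  obtain ⟨K, hK⟩ := h θ hθ hθ1 m hm r α ε q n₀ τ hα hε hodd hq ρ hρ
  refine ⟨K, fun x y hx hy =>
    (Finset.sum_le_sum_of_subset_of_nonneg ?_ fun i _ _ => by positivity).trans (hK x y hx hy)⟩
  intro N hN
  rw [mem_filter] at hN ⊢
  obtain ⟨hN1, T, w, I, a1, a2, a3, a4, a5, a6, a7⟩ := hN
  have hle : ∀ J ∈ I, J.1 ≤ J.2 := fun J hJ => by
    have := (a4 J hJ).1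
    omega
  refine ⟨hN1, T, w, I, a1, a2, a3, ⟨a4, a5⟩, ?_, ?_⟩
  · have e : (len I : ℝ) = ∑ J ∈ I, ((J.2 : ℝ) - J.1) := by
      unfold len
      rw [Nat.cast_sum]
      exact Finset.sum_congr rfl fun J hJ => Nat.cast_sub (hle J hJ)
    rw [e]
    exact a6
  · have hs : ∀ J ∈ I, J.2 - (J.2 - J.1) = J.1 := fun J hJ => by
      have := hle J hJ
      omega
    have e1 : lhI q n₀ τ (fun l => Fr (α l) (ε l)) w I T =
        ∑ J ∈ I, ∑ t ∈ (Fintype.piFinset (fun _ : Fin m => Icc 1 T)).filter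
          (fun t => ∀ l, t l ≡ τ l [MOD q]),
          |∑ n ∈ (Ioc J.1 J.2).filter (fun n => n ≡ n₀ [MOD q]),
            w n * ∏ l, Fr (α l) (ε l) (n + t l)| := by
      unfold lhI lhs bx iv
      exact Finset.sum_congr rfl fun J hJ => by rw [hs J hJ]
    have e2 : rhI q n₀ τ (fun l => Fr (α l) (ε l)) I T =
        ∑ J ∈ I, ∑ t ∈ (Fintype.piFinset (fun _ : Fin m => Icc 1 T)).filter
          (fun t => ∀ l, t l ≡ τ l [MOD q]),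
          ∑ n ∈ (Ioc J.1 J.2).filter (fun n => n ≡ n₀ [MOD q]),
            ∏ l, |Fr (α l) (ε l) (n + t l)| := by
      unfold rhI rhs bx iv
      exact Finset.sum_congr rfl fun J hJ => by rw [hs J hJ]
    rw [e1, e2]
    exact a7

end Pool.Agent.H28.MCB
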