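import Pool.Agent.H28.MCL.All
import Pool.Agent.H28.MCB.Sq
import Pool.Agent.H37.MCB.BVB
import Pool.Agent.H39.MCB.BZC
import Pool.Agent.H98.MCB.DBL
import Pool.Agent.H55.MCB.AVB
import Pool.Agent.H44.MCB.DA1
import Pool.Agent.H73.MCB.DB1
import Pool.Agent.H73.MCB.DIA
import Pool.Agent.H26.MCB.DIB
import Pool.Agent.H99.MCB.FAM
import Pool.Agent.H74.MCB.ERI
import Pool.Agent.H87.MCB.FNB
import Pool.Agent.H82.MCB.LOB
import Pool.Agent.H44.MCB.ERN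
import Pool.Agent.H21.MCB.GEB

/-! Assembly of the project MCB. -/

set_option autoImplicit false

namespace Pool.Agent.H28.MCB.All

open Pool.Agent.H28.MCL Pool.Agent.H28.MCB
open Pool.Agent.H28.MCL.All

theorem x_BVB : T_BVB := Pool.Agent.H37.MCB.bvb
theorem x_BZC : T_BZC := Pool.Agent.H39.MCB.bzc
theorem x_DBL : T_DBL := Pool.Agent.H98.MCB.dbl
theorem x_AVB : T_AVB := Pool.Agent.H55.MCB.avb
theorem x_DA1 : T_DA1 := Pool.Agent.H44.MCB.da1 x_DTQ x_YBD x_PRA x_NRM x_CNT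
theorem x_DB1 : T_DB1 := Pool.Agent.H73.MCB.db1 x_DTQ x_YBD x_NRM x_CNT
theorem x_FAM : T_FAM := Pool.Agent.H99.MCB.fam
theorem x_DIA : T_DIA := Pool.Agent.H73.MCB.dia x_DA1 x_FAM x_AVB
theorem x_DIB : T_DIB := Pool.Agent.H26.MCB.dib x_DB1 x_FAM x_AVB
theorem x_LOB : T_LOB := Pool.Agent.H82.MCB.lob x_LOW
theorem x_ERI : T_ERI := Pool.Agent.H74.MCB.ERI.eri
theorem x_FNB : T_FNB := Pool.Agent.H87.MCB.fnb
theorem x_ERN : T_ERN := Pool.Agent.H44.MCB.ern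
theorem x_GEB : T_GEB := Pool.Agent.H21.MCB.geb x_BVB x_DBL x_POS x_LOB x_ERN x_ERI x_FNB

/-- The chain from the local gap at almost all `N`. -/
theorem x_FIS (hT : T_TLS) : T_FIS :=
  fis (cas (bbs hT x_BZC x_BVB x_SYM) x_DIA x_GEB) (cbs (bbs hT x_BZC x_BVB x_SYM) x_DIB x_GEB)

end Pool.Agent.H28.MCB.All
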