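import Pool.Agent.H28.MCB.Targets
import Pool.Agent.H28.MCL.BBU

/-! Module BBB of the project MCB. -/

set_option autoImplicit false

open Finset Filter Topology

namespace Pool.Agent.H28.MCB

open Pool.Agent.H24.MR (lam)
open Pool.Agent.H28.MCL

theorem bn_mono {b b' : ℕ → ℝ} {δ ρ : ℝ} (h : ∀ n, b n ≤ b' n) (hb : Bn b' δ ρ) :
    Bn b δ ρ :=
  bd_mono (fun n => ind_mono (fun N hN => lt_of_lt_of_le hN
    (Finset.sum_le_sum fun n _ => h n)) n) hb

/-- the average over the classes, shifts and clusters -/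
theorem bbq_core (hB : T_BVB) {δ κ : ℝ} (hδ : 0 < δ)
    (hw : ∀ (S : Finset ℤ) (W a Δ : ℕ), S.Nonempty → 0 < W → Even W → 0 < Δ → ∀ ρ : ℝ, 0 < ρ →
      ∃ h₀ : ℕ, ∀ h, h₀ ≤ h → Bn (ind (Bad (fun y => gs S y * gs S (y + Δ)) κ W a h)) δ ρ)
    (m D : ℕ) (hm : 1 ≤ m) (hD : 2 ≤ D) : BBq m D κ δ := by
  classical
  intro S W A hS hW hWe hA ρ hρ
  have hm0 : (0 : ℝ) < m := by exact_mod_cast hm
  have hD0 : (0 : ℝ) < (D : ℝ) - 1 := by
    have : (2 : ℝ) ≤ D := by exact_mod_cast hD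
    linarith
  have hne : Nonempty (Fin m × Fin (D - 1) × Fin W) :=
    ⟨(⟨0, hm⟩, ⟨0, by omega⟩, ⟨0, hW⟩)⟩
  have hcard : (0 : ℝ) < Fintype.card (Fin m × Fin (D - 1) × Fin W) := by
    exact_mod_cast Fintype.card_pos
  have hx : ∀ i : Fin m × Fin (D - 1) × Fin W, ∃ h₀ : ℕ, ∀ h, h₀ ≤ h →
      Bn (ind (Bad (fun y => gs (S i.1) y * gs (S i.1) (y + (1 + (i.2.1 : ℕ)) * W)) κ W
        (i.2.2 : ℕ) h)) δ (ρ / Fintype.card (Fin m × Fin (D - 1) × Fin W)) := fun i =>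
    hw (S i.1) W (i.2.2 : ℕ) ((1 + (i.2.1 : ℕ)) * W) (hS i.1) hW hWe (by positivity) _
      (by positivity)
  choose h₀ hh₀ using hx
  refine ⟨Finset.univ.sup h₀, fun h hh => ?_⟩
  set c : Fin m × Fin (D - 1) × Fin W → ℝ := fun i =>
    1 / ((m : ℝ) * ((D : ℝ) - 1)) * (1 / ((A i.1).card : ℝ) *
      (if (i.2.2 : ℕ) ∈ A i.1 then 1 else 0)) with hc
  have hin : ∀ (l : Fin m) (φ : ℕ → ℝ), ∑ a ∈ A l, φ a =
      ∑ a : Fin W, (if (a : ℕ) ∈ A l then 1 else 0) * φ a := by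
    intro l φ
    rw [Fin.sum_univ_eq_sum_range (fun a => (if a ∈ A l then (1 : ℝ) else 0) * φ a) W]
    have h1 : ∀ a ∈ Finset.range W, (if a ∈ A l then (1 : ℝ) else 0) * φ a =
        if a ∈ A l then φ a else 0 := by
      intro a _
      split_ifs <;> simp
    rw [Finset.sum_congr rfl h1, ← Finset.sum_filter]
    congr 1
    ext a
    rw [Finset.mem_filter]
    exact ⟨fun ha => ⟨hA l ha, ha⟩, fun ha => ha.2⟩
  have hD1 : ((D - 1 : ℕ) : ℝ) = (D : ℝ) - 1 := by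
    rw [Nat.cast_sub (by omega)]
    simp
  have hsum : ∑ i, c i ≤ 1 := by
    rw [Fintype.sum_prod_type]
    have h1 : ∀ l : Fin m, ∑ y : Fin (D - 1) × Fin W, c (l, y) ≤ 1 / (m : ℝ) := by
      intro l
      rw [Fintype.sum_prod_type]
      have h2 : ∀ j : Fin (D - 1), ∑ a : Fin W, c (l, j, a) ≤ 1 / ((m : ℝ) * ((D : ℝ) - 1)) := by
        intro j
        simp only [hc]
        rw [← Finset.mul_sum, ← Finset.mul_sum]
        have h3 := hin l (fun _ => 1)
        simp only [mul_one] at h3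
        rw [← h3, Finset.sum_const, nsmul_eq_mul, mul_one]
        refine mul_le_of_le_one_right (by positivity) ?_
        rcases Nat.eq_zero_or_pos (A l).card with h4 | h4
        · rw [h4]; simp
        · rw [one_div, inv_mul_cancel₀ (by positivity)]
      calc ∑ j : Fin (D - 1), ∑ a : Fin W, c (l, j, a) ≤
            ∑ _j : Fin (D - 1), 1 / ((m : ℝ) * ((D : ℝ) - 1)) := Finset.sum_le_sum fun j _ => h2 j
        _ = 1 / (m : ℝ) := by
            rw [Finset.sum_const, Finset.card_univ, Fintype.card_fin, nsmul_eq_mul, hD1]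
            field_simp
    calc ∑ l : Fin m, ∑ y : Fin (D - 1) × Fin W, c (l, y) ≤ ∑ _l : Fin m, 1 / (m : ℝ) :=
          Finset.sum_le_sum fun l _ => h1 l
      _ = 1 := by
          rw [Finset.sum_const, Finset.card_univ, Fintype.card_fin, nsmul_eq_mul]
          field_simp
  have hfin := hB (Fin m × Fin (D - 1) × Fin W) (fun i => ind (Bad (fun y => gs (S i.1) y *
    gs (S i.1) (y + (1 + (i.2.1 : ℕ)) * W)) κ W (i.2.2 : ℕ) h)) c δ ρ hδ.le hρ
    (fun i => by simp only [hc]; split_ifs <;> positivity) hsum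
    (fun i => hh₀ i h ((Finset.le_sup (Finset.mem_univ i)).trans hh))
  have e : bb D W κ h A (fun l => gs (S l)) = fun n => ∑ i, c i *
      ind (Bad (fun y => gs (S i.1) y * gs (S i.1) (y + (1 + (i.2.1 : ℕ)) * W)) κ W
        (i.2.2 : ℕ) h) n := by
    funext z
    unfold bb bc
    rw [Fintype.sum_prod_type, Finset.mul_sum]
    refine Finset.sum_congr rfl fun l _ => ?_
    rw [Fintype.sum_prod_type, Finset.sum_Ico_eq_sum_range,
      ← Fin.sum_univ_eq_sum_range (fun j => 1 / ((A l).card : ℝ) * ∑ a ∈ A l,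
        ind (Bad (fun y => gs (S l) y * gs (S l) (y + (1 + j) * W)) κ W a h) z) (D - 1),
      Finset.mul_sum]
    refine Finset.sum_congr rfl fun j _ => ?_
    rw [hin l, Finset.mul_sum, Finset.mul_sum]
    refine Finset.sum_congr rfl fun a _ => ?_
    simp only [hc]
    ring
  rw [e]
  exact hfin

theorem bbb (hT : T_TLB) (hz : T_BZC) (hv : T_BVB) (hs : T_SYM) : T_BBB := by
  obtain ⟨c, hc, h⟩ := hT
  have hc1 : 0 < min c 1 := lt_min hc one_pos
  refine ⟨min c 1 / 16, by positivity, ?_, ?_⟩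
  · have := min_le_right c (1 : ℝ)
    linarith
  intro δ hδ hδ1 m D hm hD
  have hδ3 : 0 < δ ^ 4 := by positivity
  have hδ31 : δ ^ 4 ≤ 1 := pow_le_one₀ hδ.le hδ1
  have hκ : 0 < min c 1 / 16 * δ ^ 4 := by positivity
  have hκ1 : min c 1 / 16 * δ ^ 4 ≤ 1 := by
    have h1 := min_le_right c (1 : ℝ)
    have h2 : min c 1 / 16 * δ ^ 4 ≤ 1 * 1 := mul_le_mul (by linarith) hδ31 hδ3.le (by norm_num)
    linarith
  refine bbq_core hv hδ (fun S W a Δ hSn hW hWe hΔ ρ hρ => ?_) m D hm hD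
  obtain ⟨S', hn', _, he⟩ := hs S Δ hSn hΔ
  have e : (fun y => gs S y * gs S (y + Δ)) = gs S' := funext he
  rw [e]
  refine hz δ _ ρ S' W a hδ hκ hκ1 hρ hn' hW fun k' β hk' hβ => ?_
  obtain ⟨h₀, hh⟩ := h (δ / 2) (by linarith) (by linarith) k' β W a hk' hW hWe hβ (ρ / 2)
    (by linarith)
  refine ⟨h₀, fun H hH => bn_mono (fun n => ind_mono (fun n' hn => bad_mono ?_ hn) n) (hh H hH)⟩
  have h1 := min_le_left c (1 : ℝ)
  have h2 : c * (δ / 2) ^ 4 = c / 16 * δ ^ 4 := by ring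
  rw [h2]
  exact mul_le_mul_of_nonneg_right (by linarith) hδ3.le

end Pool.Agent.H28.MCB
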