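import Pool.Agent.H28.MCL.Targets

/-!
Definitions for the project MCB (products of clusters at almost all scales) on `MP_c59857_nt`.
-/

set_option autoImplicit false

open Finset Filter Topology

namespace Pool.Agent.H28.MCB

open Pool.Agent.H24.MR (lam)
open Pool.Agent.H24.T2 (Fr)
open Pool.Agent.H28.MCL

/-- the `N` for which the mean of `b` over `[1, N]` is more than `δ` are rare -/
def Bn (b : ℕ → ℝ) (δ ρ : ℝ) : Prop :=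
  Bd (ind (fun N => δ * N < ∑ n ∈ Finset.Icc 1 N, b n)) ρ

/-- families of disjoint intervals in `(0, N]` of lengths at least `K` -/
def Fam (K N : ℕ) (I : Finset (ℕ × ℕ)) : Prop :=
  (∀ J ∈ I, J.1 + K ≤ J.2 ∧ J.2 ≤ N) ∧
  (I : Set (ℕ × ℕ)).PairwiseDisjoint (fun J => Finset.Ioc J.1 J.2)

/-- total length -/
def len (I : Finset (ℕ × ℕ)) : ℕ := ∑ J ∈ I, (J.2 - J.1)

/-- the sum over `t` and over the intervals of the absolute values -/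
noncomputable def lhI {m : ℕ} (q n₀ : ℕ) (τ : Fin m → ℕ) (F : Fin m → ℕ → ℝ) (w : ℕ → ℝ)
    (I : Finset (ℕ × ℕ)) (T : ℕ) : ℝ :=
  ∑ J ∈ I, lhs q n₀ τ F w J.2 (J.2 - J.1) T

/-- the trivial bound -/
noncomputable def rhI {m : ℕ} (q n₀ : ℕ) (τ : Fin m → ℕ) (F : Fin m → ℕ → ℝ)
    (I : Finset (ℕ × ℕ)) (T : ℕ) : ℝ :=
  ∑ J ∈ I, rhs q n₀ τ F J.2 (J.2 - J.1) T

/-- the bad windows are rare up to almost all `N`, for all classes and clusters -/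
def BBq (m D : ℕ) (κ δ : ℝ) : Prop :=
  ∀ (S : Fin m → Finset ℤ) (W : ℕ) (A : Fin m → Finset ℕ), (∀ l, (S l).Nonempty) → 0 < W →
    Even W → (∀ l, A l ⊆ Finset.range W) → ∀ ρ : ℝ, 0 < ρ →
    ∃ h₀ : ℕ, ∀ h, h₀ ≤ h → Bn (bb D W κ h A (fun l => gs (S l))) δ ρ

/-- the mean over `s` in `[1, T]` -/
noncomputable def av (T : ℕ) (b : ℕ → ℝ) (n : ℕ) : ℝ :=
  1 / (T : ℝ) * ∑ s ∈ Finset.Icc 1 T, b (n + s)

/-- the bound for one interval; `b` is the function which counts the bad windows -/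
def DT1 (m : ℕ) (κ V C : ℝ) (b : ℕ → ℕ → (Fin m → Finset ℕ) → (Fin m → ℕ → ℝ) → ℕ → ℝ) : Prop :=
  ∀ q W : ℕ, 0 < q → q ∣ W → 0 < W → ∀ ζ : ℝ, 0 < ζ → ∃ h₁ : ℕ, ∀ h, h₁ ≤ h → ∃ K : ℕ,
    ∀ (n₀ : ℕ) (τ : Fin m → ℕ) (A : Fin m → Finset ℕ) (g : Fin m → ℕ → ℝ),
      (∀ l, A l ⊆ Finset.range W) → (∀ l, ∀ a ∈ A l, a ≡ n₀ + τ l [MOD q]) →
      (∀ l y, |g l y| ≤ 1) → ∀ N H T : ℕ, K ≤ H → H ≤ N → K ≤ T →
      ∀ w : ℕ → ℝ, (∀ n, |w n| ≤ 1) →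
      (lhs q n₀ τ (gc W A g) w N H T) ^ 2 ≤ (mm q W A H T) ^ 2 *
        (V + C * ((q : ℝ) / H * ∑ n ∈ iv N H q n₀, av T (b W h A g) n) + ζ)

/-- the bound for a family of intervals -/
def DTI (m D : ℕ) (κ θ δ V : ℝ) : Prop :=
  ∀ q W : ℕ, 0 < q → q ∣ W → 0 < W → ∀ ζ : ℝ, 0 < ζ → ∃ h₁ : ℕ, ∀ h, h₁ ≤ h → ∃ K : ℕ,
    ∀ (n₀ : ℕ) (τ : Fin m → ℕ) (A : Fin m → Finset ℕ) (g : Fin m → ℕ → ℝ),
      (∀ l, A l ⊆ Finset.range W) → (∀ l, ∀ a ∈ A l, a ≡ n₀ + τ l [MOD q]) →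
      (∀ l y, |g l y| ≤ 1) → ∀ (N T : ℕ) (I : Finset (ℕ × ℕ)), K ≤ T → T ≤ N → Fam K N I →
      θ * N ≤ len I → ∑ n ∈ Finset.Icc 1 (2 * N), bb D W κ h A g n ≤ 2 * δ * N →
      ∀ w : ℕ → ℝ, (∀ n, |w n| ≤ 1) →
      (lhI q n₀ τ (gc W A g) w I T) ^ 2 ≤ (mm q W A (len I) T) ^ 2 * (V + ζ)

open Classical in
/-- the theorem with the constants `θ` and `η` -/
def CorB (m : ℕ) (θ η : ℝ) : Prop :=
  ∀ (r : Fin m → ℕ) (α : (l : Fin m) → Fin (r l) → ℤ) (ε : (l : Fin m) → Fin (r l) → ℕ)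
    (q n₀ : ℕ) (τ : Fin m → ℕ), (∀ l, Function.Injective (α l)) → (∀ l i, 1 ≤ ε l i) →
    (∀ l, ∃ i, Odd (ε l i)) → 0 < q → ∀ ρ : ℝ, 0 < ρ → ∃ K : ℕ, ∀ x y : ℕ, 0 < x → K * x ≤ y →
      ∑ N ∈ (Finset.Icc x y).filter (fun N => ∃ (T : ℕ) (w : ℕ → ℝ) (I : Finset (ℕ × ℕ)),
          K ≤ T ∧ T ≤ N ∧ (∀ n, |w n| ≤ 1) ∧ Fam K N I ∧ θ * N ≤ len I ∧
          η * rhI q n₀ τ (fun l => Fr (α l) (ε l)) I T <
            lhI q n₀ τ (fun l => Fr (α l) (ε l)) w I T),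
        (1 : ℝ) / N ≤ ρ * Real.log ((y : ℝ) / x)

end Pool.Agent.H28.MCB
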