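import Pool.Agent.H28.MCB.Targets

/-!
The final theorem of the project MCB without auxiliary definitions.
-/

set_option autoImplicit false

open Finset Filter Topology

namespace Pool.Agent.H28.MCB

open Pool.Agent.H24.T2 (Fr)
open Pool.Agent.H28.MCL

open Classical in
/-- The final theorem without auxiliary definitions. -/
theorem fib_explicit (hF : T_FIB) :
    ∃ c : ℝ, 0 < c ∧ ∀ (θ : ℝ) (m : ℕ) (r : Fin m → ℕ) (α : (l : Fin m) → Fin (r l) → ℤ)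
      (ε : (l : Fin m) → Fin (r l) → ℕ) (q n₀ : ℕ) (τ : Fin m → ℕ) (ρ : ℝ), 0 < θ → θ ≤ 1 →
      1 ≤ m → (∀ l, Function.Injective (α l)) → (∀ l i, 1 ≤ ε l i) → (∀ l, ∃ i, Odd (ε l i)) →
      0 < q → 0 < ρ →
      ∃ K : ℕ, ∀ x y : ℕ, 0 < x → K * x ≤ y →
        ∑ N ∈ (Icc x y).filter (fun N => ∃ (T : ℕ) (w : ℕ → ℝ) (I : Finset (ℕ × ℕ)),
            K ≤ T ∧ T ≤ N ∧ (∀ n, |w n| ≤ 1) ∧ (∀ J ∈ I, J.1 + K ≤ J.2 ∧ J.2 ≤ N) ∧
            (I : Set (ℕ × ℕ)).PairwiseDisjoint (fun J => Ioc J.1 J.2) ∧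
            θ * N ≤ ∑ J ∈ I, ((J.2 : ℝ) - J.1) ∧
            min (1 - c * θ ^ 4) ((1 / (θ ^ 4 * (m : ℝ))) ^ ((1 : ℝ) / 9) / c) *
              (∑ J ∈ I, ∑ t ∈ (Fintype.piFinset (fun _ : Fin m => Icc 1 T)).filter
                  (fun t => ∀ l, t l ≡ τ l [MOD q]),
                ∑ n ∈ (Ioc J.1 J.2).filter (fun n => n ≡ n₀ [MOD q]),
                  ∏ l, |∏ i, ((ArithmeticFunction.moebius
                    ((((n + t l : ℕ) : ℤ) + α l i).toNat) : ℤ) : ℝ) ^ ε l i|) <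
              ∑ J ∈ I, ∑ t ∈ (Fintype.piFinset (fun _ : Fin m => Icc 1 T)).filter
                  (fun t => ∀ l, t l ≡ τ l [MOD q]),
                |∑ n ∈ (Ioc J.1 J.2).filter (fun n => n ≡ n₀ [MOD q]),
                  w n * ∏ l, ∏ i, ((ArithmeticFunction.moebius
                    ((((n + t l : ℕ) : ℤ) + α l i).toNat) : ℤ) : ℝ) ^ ε l i|),
          (1 : ℝ) / N ≤ ρ * Real.log ((y : ℝ) / x) := by
  obtain ⟨c, hc, h⟩ := hF
  refine ⟨c, hc, fun θ m r α ε q n₀ τ ρ hθ hθ1 hm hα hε hodd hq hρ => ?_⟩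
  obtain ⟨K, hK⟩ := h θ hθ hθ1 m hm r α ε q n₀ τ hα hε hodd hq ρ hρ
  refine ⟨K, fun x y hx hy =>
    (Finset.sum_le_sum_of_subset_of_nonneg ?_ fun i _ _ => by positivity).trans (hK x y hx hy)⟩
  intro N hN
  rw [mem_filter] at hN ⊢
  obtain ⟨hN1, T, w, I, a1, a2, a3, a4, a5, a6, a7⟩ := hN
  have hle : ∀ J ∈ I, J.1 ≤ J.2 := fun J hJ => by
    have := (a4 J hJ).1
    omega
  refine ⟨hN1, T, w, I, a1, a2, a3, ⟨a4, a5⟩, ?_, ?_⟩
  · have e : (len I : ℝ) = ∑ J ∈ I, ((J.2 : ℝ) - J.1) := by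
      unfold len
      rw [Nat.cast_sum]
      exact Finset.sum_congr rfl fun J hJ => Nat.cast_sub (hle J hJ)
    rw [e]
    exact a6
  · have hs : ∀ J ∈ I, J.2 - (J.2 - J.1) = J.1 := fun J hJ => by
      have := hle J hJ
      omega
    have e1 : lhI q n₀ τ (fun l => Fr (α l) (ε l)) w I T =
        ∑ J ∈ I, ∑ t ∈ (Fintype.piFinset (fun _ : Fin m => Icc 1 T)).filter
          (fun t => ∀ l, t l ≡ τ l [MOD q]),
          |∑ n ∈ (Ioc J.1 J.2).filter (fun n => n ≡ n₀ [MOD q]),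
            w n * ∏ l, Fr (α l) (ε l) (n + t l)| := by
      unfold lhI lhs bx iv
      exact Finset.sum_congr rfl fun J hJ => by rw [hs J hJ]
    have e2 : rhI q n₀ τ (fun l => Fr (α l) (ε l)) I T =
        ∑ J ∈ I, ∑ t ∈ (Fintype.piFinset (fun _ : Fin m => Icc 1 T)).filter
          (fun t => ∀ l, t l ≡ τ l [MOD q]),
          ∑ n ∈ (Ioc J.1 J.2).filter (fun n => n ≡ n₀ [MOD q]),
            ∏ l, |Fr (α l) (ε l) (n + t l)| := by
      unfold rhI rhs bx iv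
      exact Finset.sum_congr rfl fun J hJ => by rw [hs J hJ]
    rw [e1, e2]
    exact a7

end Pool.Agent.H28.MCB
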