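import Pool.Agent.H28.MCB.Defs

/-!
Statements of the modules of the project MCB (products of clusters at almost all scales) on
`MP_c59857_nt`.
-/

set_option autoImplicit false

open Finset Filter Topology

namespace Pool.Agent.H28.MCB

open Pool.Agent.H24.MR (lam)
open Pool.Agent.H24.T2 (Fr)
open Pool.Agent.H27.T2 (good)
open Pool.Agent.H28.MCL

/-! ## Part B: the bad windows -/

/-- [TLB] The local gap for products of values of the Liouville function, for almost all `N`,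
uniform in the number of points. -/
def T_TLB : Prop :=
  ∃ c : ℝ, 0 < c ∧ ∀ δ : ℝ, 0 < δ → δ ≤ 1 →
    ∀ (k : ℕ) (β : Fin k → ℕ) (Q a : ℕ), 0 < k → 0 < Q → Even Q → Function.Injective β →
      ∀ ρ : ℝ, 0 < ρ →
      ∃ h₀ : ℕ, ∀ h, h₀ ≤ h → Bn (ind (Bad (fun y => ∏ i, lam (y + β i)) (c * δ ^ 4) Q a h)) δ ρ

/-- [BZC] The same for integer shifts, for a fixed constant. -/
def T_BZC : Prop :=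
  ∀ (δ κ ρ : ℝ) (S : Finset ℤ) (Q a : ℕ), 0 < δ → 0 < κ → κ ≤ 1 → 0 < ρ → S.Nonempty → 0 < Q →
    (∀ (k : ℕ) (β : Fin k → ℕ), 0 < k → Function.Injective β →
      ∃ h₀ : ℕ, ∀ h, h₀ ≤ h →
        Bn (ind (Bad (fun y => ∏ i, lam (y + β i)) κ Q a h)) (δ / 2) (ρ / 2)) →
    ∃ h₀ : ℕ, ∀ h, h₀ ≤ h → Bn (ind (Bad (gs S) κ Q a h)) δ ρ

/-- [BVB] Averages. -/
def T_BVB : Prop :=
  ∀ (ι : Type) [Fintype ι] (b : ι → ℕ → ℝ) (c : ι → ℝ) (δ ρ : ℝ), 0 ≤ δ → 0 < ρ →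
    (∀ i, 0 ≤ c i) → ∑ i, c i ≤ 1 → (∀ i, Bn (b i) δ (ρ / Fintype.card ι)) →
    Bn (fun n => ∑ i, c i * b i n) δ ρ

/-- [DBL] The doubled interval. -/
def T_DBL : Prop :=
  ∀ (b : ℕ → ℝ) (δ ρ : ℝ), Bn b δ ρ →
    Bd (ind (fun N => 2 * δ * N < ∑ n ∈ Finset.Icc 1 (2 * N), b n)) (2 * ρ)

/-- [BBB] The bad windows are rare, explicit constant. -/
def T_BBB : Prop :=
  ∃ c : ℝ, 0 < c ∧ c ≤ 1 ∧ ∀ δ : ℝ, 0 < δ → δ ≤ 1 → ∀ m D : ℕ, 1 ≤ m → 2 ≤ D →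
    BBq m D (c * δ ^ 4) δ

/-! ## Part D: the deterministic bound -/

/-- [AVB] The average over the windows. -/
def T_AVB : Prop :=
  ∀ (b : ℕ → ℝ) (δ : ℝ) (q n₀ N T : ℕ), (∀ n, 0 ≤ b n) → 0 < q → q ≤ T → T ≤ N →
    ∑ n ∈ Finset.Icc 1 (2 * N), b n ≤ 2 * δ * N →
    ∑ n ∈ iv N N q n₀, av T b n ≤ 4 * δ * N / q

/-- [DA1] One interval, many clusters. -/
def T_DA1 : Prop :=
  ∀ (m D : ℕ) (κ : ℝ), 1 ≤ m → 2 ≤ D → 0 < κ → κ ≤ 1 →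
    DT1 m κ (1 / D + 4 * Real.sqrt (1 - κ / 4) ^ m) 16 (fun W h A g => bb D W κ h A g)

/-- [DB1] One interval, any number of clusters. -/
def T_DB1 : Prop :=
  ∀ (m : ℕ) (l : Fin m) (κ : ℝ), 0 < κ → κ ≤ 1 →
    DT1 m κ (1 - κ / 2) (κ / 2) (fun W h A g => bc W κ h A g l 1)

/-- [FAM] The Cauchy-Schwarz inequality for a family of intervals. -/
def T_FAM : Prop :=
  ∀ (m q W n₀ : ℕ) (τ : Fin m → ℕ) (A : Fin m → Finset ℕ) (F : Fin m → ℕ → ℝ) (w : ℕ → ℝ)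
    (V C : ℝ) (N T : ℕ) (I : Finset (ℕ × ℕ)) (b : ℕ → ℝ), 0 < q → 0 ≤ V → 0 ≤ C →
    (∀ n, 0 ≤ b n) → Fam 1 N I →
    (∀ J ∈ I, (lhs q n₀ τ F w J.2 (J.2 - J.1) T) ^ 2 ≤ (mm q W A (J.2 - J.1) T) ^ 2 *
      (V + C * ((q : ℝ) / ((J.2 - J.1 : ℕ) : ℝ) * ∑ n ∈ iv J.2 (J.2 - J.1) q n₀, b n))) →
    (lhI q n₀ τ F w I T) ^ 2 ≤ (mm q W A (len I) T) ^ 2 *
      (V + C * ((q : ℝ) / (len I : ℝ) * ∑ n ∈ iv N N q n₀, b n))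

/-- [DIA] A family of intervals, many clusters. -/
def T_DIA : Prop :=
  ∀ (m D : ℕ) (κ θ δ : ℝ), 1 ≤ m → 2 ≤ D → 0 < κ → κ ≤ 1 → 0 < θ → 0 ≤ δ →
    DTI m D κ θ δ (1 / D + 4 * Real.sqrt (1 - κ / 4) ^ m + 64 * (δ / θ))

/-- [DIB] A family of intervals, any number of clusters. -/
def T_DIB : Prop :=
  ∀ (m : ℕ) (κ θ δ : ℝ), 1 ≤ m → 0 < κ → κ ≤ 1 → 0 < θ → 0 ≤ δ → 16 * δ ≤ θ →
    DTI m 2 κ θ δ (1 - κ / 4)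

/-! ## Part F: the final theorem -/

/-- [LOB] The trivial bound from below. -/
def T_LOB : Prop :=
  ∀ (m q W : ℕ) (ζ : ℝ), 0 < q → 0 < W → q ∣ W → 0 < ζ → ∃ K : ℕ,
    ∀ (n₀ : ℕ) (τ : Fin m → ℕ) (A : Fin m → Finset ℕ) (g : Fin m → ℕ → ℝ),
      (∀ l, A l ⊆ Finset.range W) → (∀ l, ∀ a ∈ A l, a ≡ n₀ + τ l [MOD q]) →
      (∀ l y, |g l y| = 1) → ∀ (N T : ℕ) (I : Finset (ℕ × ℕ)), Fam K N I → K ≤ T →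
      (1 - ζ) * mm q W A (len I) T ≤ rhI q n₀ τ (gc W A g) I T

/-- [ERN] The density of the errors. -/
def T_ERN : Prop :=
  ∀ (r : ℕ) (α : Fin r → ℤ) (ε : Fin r → ℕ) (q n₀ w W : ℕ), Function.Injective α →
    (∀ i, 1 ≤ ε i) → 0 < q → 0 < w → 0 < W → q ∣ W →
    (∀ p : ℕ, p.Prime → p ≤ w → p ^ 2 ∣ W) →
    ∃ K : ℕ, ∀ N, K ≤ N → ∑ n ∈ Finset.Icc 1 N, ind (fun y => y ≡ n₀ [MOD q] ∧
      Fr α ε y ≠ if y % W ∈ good α q n₀ w W then gs (od α ε) y else 0) n ≤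
        (4 * r + 1) / w * N

/-- [ERI] The error for a family of intervals. -/
def T_ERI : Prop :=
  ∀ (m q n₀ : ℕ) (τ : Fin m → ℕ) (F G : Fin m → ℕ → ℝ) (ε : ℝ) (N T : ℕ)
    (I : Finset (ℕ × ℕ)), 1 ≤ m → 0 < q → (∀ l y, |F l y| ≤ 1) → (∀ l y, |G l y| ≤ 1) →
    1 ≤ T → T ≤ N → Fam 1 N I → ∑ n ∈ Finset.Icc 1 (2 * N), ee q n₀ τ F G n ≤ 2 * ε * N →
    ∑ J ∈ I, ∑ t ∈ bx m T q τ, ∑ n ∈ iv J.2 (J.2 - J.1) q n₀,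
      |∏ l, F l (n + t l) - ∏ l, G l (n + t l)| ≤ 4 * m * ε * (T : ℝ) ^ m * N

/-- [FNB] The comparison. -/
def T_FNB : Prop :=
  ∀ (m q n₀ : ℕ) (τ : Fin m → ℕ) (F G : Fin m → ℕ → ℝ) (w : ℕ → ℝ) (I : Finset (ℕ × ℕ))
    (T : ℕ) (M V ζ η : ℝ), 0 ≤ M → 0 ≤ V → 0 ≤ η → (∀ n, |w n| ≤ 1) →
    (∑ J ∈ I, ∑ t ∈ bx m T q τ, ∑ n ∈ iv J.2 (J.2 - J.1) q n₀,
      |∏ l, F l (n + t l) - ∏ l, G l (n + t l)| ≤ ζ * M) →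
    (lhI q n₀ τ G w I T) ^ 2 ≤ M ^ 2 * V → (1 - ζ) * M ≤ rhI q n₀ τ G I T →
    Real.sqrt V + ζ ≤ η * (1 - 2 * ζ) →
    lhI q n₀ τ F w I T ≤ η * rhI q n₀ τ F I T

/-- [GEB] The theorem with the constants `θ` and `η` from the deterministic bound. -/
def T_GEB : Prop :=
  ∀ (m D : ℕ) (θ δ κ V η : ℝ), 1 ≤ m → 2 ≤ D → 0 < θ → θ ≤ 1 → 0 < δ → 0 < κ → κ ≤ 1 →
    0 ≤ V → Real.sqrt V < η → BBq m D κ δ → DTI m D κ θ δ V → CorB m θ η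

/-- [CBB] Any number of clusters. -/
def T_CBB : Prop :=
  ∃ c : ℝ, 0 < c ∧ c ≤ 1 ∧ ∀ θ : ℝ, 0 < θ → θ ≤ 1 → ∀ m : ℕ, 1 ≤ m →
    CorB m θ (1 - c * θ ^ 4)

/-- [CAB] Many clusters. -/
def T_CAB : Prop :=
  ∃ c : ℝ, 0 < c ∧ c ≤ 1 ∧ ∀ θ : ℝ, 0 < θ → θ ≤ 1 → ∀ m : ℕ, 1 ≤ m →
    (1 / (θ ^ 4 * (m : ℝ))) ^ ((1 : ℝ) / 9) / c < 1 →
    CorB m θ ((1 / (θ ^ 4 * (m : ℝ))) ^ ((1 : ℝ) / 9) / c)

/-- [FIB] The final theorem. -/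
def T_FIB : Prop :=
  ∃ c : ℝ, 0 < c ∧ ∀ θ : ℝ, 0 < θ → θ ≤ 1 → ∀ m : ℕ, 1 ≤ m →
    CorB m θ (min (1 - c * θ ^ 4) ((1 / (θ ^ 4 * (m : ℝ))) ^ ((1 : ℝ) / 9) / c))

end Pool.Agent.H28.MCB
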