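import Pool.Agent.H24.BZ.Targets
import Pool.Agent.H28.MCB.Sq

/-! From the local gap of the project BZ to the row TLS. -/

set_option autoImplicit false

namespace Pool.Agent.H28.MCB

theorem tls (h : Pool.Agent.H24.BZ.T_TLB) : T_TLS := by
  obtain ⟨c, hc, h⟩ := h
  exact ⟨c, hc, fun δ hδ hδ1 k β Q a hk hQ hQe hβ ρ hρ =>
    h k Q a β δ ρ hk hQ hQe hβ hδ hδ1 hρ⟩

end Pool.Agent.H28.MCB
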